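import Mathlib

set_option autoImplicit false

namespace Pool.Agent.Results.MP_22e672_co.Cube

/-- A face: `P` itself or the intersection of `P` with a supporting hyperplane. -/
def IsFace {d : ℕ} (P F : Set (Fin d → ℝ)) : Prop :=
  F = P ∨ ∃ (l : (Fin d → ℝ) →ₗ[ℝ] ℝ) (c : ℝ), l ≠ 0 ∧ (∀ x ∈ P, l x ≤ c) ∧ (∃ x ∈ P, l x = c) ∧
    F = {x ∈ P | l x = c}

/-- Boundary points of `P` lying in no `i`-dimensional face. -/
def X {d : ℕ} (i : ℕ) (P : Set (Fin d → ℝ)) : Set (Fin d → ℝ) :=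
  {b ∈ frontier P | ¬ ∃ F, IsFace P F ∧ Module.finrank ℝ (vectorSpan ℝ F) = i ∧ b ∈ F}

/-- The source `s` illuminates the point `b`. -/
def Illum {d : ℕ} (P : Set (Fin d → ℝ)) (s b : Fin d → ℝ) : Prop :=
  (∃ t : ℝ, 0 ≤ t ∧ s + t • (b - s) ∈ interior P) ∧ segment ℝ s b ∩ P ⊆ {b}

noncomputable def V : Finset (Fin 4 → ℝ) := Fintype.piFinset (fun _ => ({-1, 1} : Finset ℝ))

lemma hull : convexHull ℝ (V : Set (Fin 4 → ℝ)) = Set.univ.pi (fun _ => Set.Icc (-1 : ℝ) 1) := by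
  rw [V, Fintype.coe_piFinset, convexHull_pi]
  congr 1
  funext i
  rw [Finset.coe_pair, convexHull_pair, segment_eq_Icc (by norm_num)]

lemma inter : interior (convexHull ℝ (V : Set (Fin 4 → ℝ)))
    = Set.univ.pi (fun _ => Set.Ioo (-1 : ℝ) 1) := by
  rw [hull, interior_pi_set Set.finite_univ]
  simp

def sg (e : Bool) : ℝ := if e then 1 else -1

def pt (i j : Fin 4) (e f : Bool) : Fin 4 → ℝ := fun k => if k = i then sg e else if k = j then sg f else 0

lemma sg_mem (e : Bool) : -1 ≤ sg e ∧ sg e ≤ 1 := by cases e <;> simp [sg]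

lemma mem_shift (i j k : Fin 4) (e f : Bool) (hi : k ≠ i) (hj : k ≠ j) (a : ℝ) (h1 : -1 ≤ a)
    (h2 : a ≤ 1) : pt i j e f + a • Pi.single k (1 : ℝ) ∈ convexHull ℝ (V : Set (Fin 4 → ℝ)) := by
  rw [hull]
  intro m _
  by_cases hm : m = k
  · subst hm
    simp [pt, hi, hj, h1, h2]
  · simp only [Pi.add_apply, Pi.smul_apply, Pi.single_eq_of_ne hm, smul_zero, add_zero, pt]
    split_ifs
    · exact sg_mem e
    · exact sg_mem f
    · simp

lemma others : ∀ i j : Fin 4, i ≠ j → ∃ k l : Fin 4, k ≠ l ∧ k ≠ i ∧ k ≠ j ∧ l ≠ i ∧ l ≠ j := by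
  decide

lemma not_int (i j : Fin 4) (e f : Bool) :
    pt i j e f ∉ interior (convexHull ℝ (V : Set (Fin 4 → ℝ))) := by
  rw [inter]
  intro h
  have := h i trivial
  cases e <;> simp [pt, sg] at this

lemma pt_mem (i j : Fin 4) (hij : i ≠ j) (e f : Bool) :
    pt i j e f ∈ X 1 (convexHull ℝ (V : Set (Fin 4 → ℝ))) := by
  obtain ⟨k, l, hkl, hki, hkj, hli, hlj⟩ := others i j hij
  have h0 : pt i j e f ∈ convexHull ℝ (V : Set (Fin 4 → ℝ)) := by
    simpa using mem_shift i j k e f hki hkj 0 (by norm_num) (by norm_num)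
  refine ⟨⟨subset_closure h0, not_int i j e f⟩, ?_⟩
  rintro ⟨F, hF, hdim, hb⟩
  have key : ∀ m, m ≠ i → m ≠ j → (Pi.single m (1 : ℝ) : Fin 4 → ℝ) ∈ vectorSpan ℝ F := by
    intro m hmi hmj
    have hp := mem_shift i j m e f hmi hmj 1 (by norm_num) (by norm_num)
    have hn := mem_shift i j m e f hmi hmj (-1) (by norm_num) (by norm_num)
    have hF' : pt i j e f + (1 : ℝ) • Pi.single m (1 : ℝ) ∈ F := by
      rcases hF with rfl | ⟨L, c, _, hle, _, rfl⟩
      · exact hp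
      · refine ⟨hp, ?_⟩
        have h1 := hle _ hp
        have h2 := hle _ hn
        have h3 := hb.2
        simp only [map_add, map_smul, smul_eq_mul] at h1 h2 ⊢
        linarith
    have := vsub_mem_vectorSpan ℝ hF' hb
    simpa using this
  have hli' : LinearIndependent ℝ ![(Pi.single k (1 : ℝ) : Fin 4 → ℝ), Pi.single l (1 : ℝ)] := by
    rw [LinearIndependent.pair_iff]
    intro s t h
    have h1 := congrFun h k
    have h2 := congrFun h l
    simp [hkl, hkl.symm] at h1 h2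
    exact ⟨h1, h2⟩
  have hle : Submodule.span ℝ (Set.range
      ![(Pi.single k (1 : ℝ) : Fin 4 → ℝ), Pi.single l (1 : ℝ)]) ≤ vectorSpan ℝ F := by
    rw [Submodule.span_le]
    rintro x ⟨m, rfl⟩
    fin_cases m
    · exact key k hki hkj
    · exact key l hli hlj
  have h2 := Submodule.finrank_mono hle
  rw [finrank_span_eq_card hli', hdim] at h2
  simp at h2

lemma illum_sign (s b : Fin 4 → ℝ) (h : Illum (convexHull ℝ (V : Set (Fin 4 → ℝ))) s b)
    (i : Fin 4) (e : Bool) (hb : b i = sg e) : decide (0 < s i) = e := by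
  obtain ⟨⟨t, ht0, ht⟩, hseg⟩ := h
  have hin := ht
  rw [inter] at hin
  have hi := hin i trivial
  simp only [Pi.add_apply, Pi.smul_apply, Pi.sub_apply, smul_eq_mul, Set.mem_Ioo, hb] at hi
  have ht1 : 1 < t := by
    by_contra hc
    push Not at hc
    have hm : s + t • (b - s) ∈ segment ℝ s b := by
      rw [segment_eq_image']
      exact ⟨t, ⟨ht0, hc⟩, rfl⟩
    have := congrFun (Set.mem_singleton_iff.1 (hseg ⟨hm, interior_subset ht⟩)) i
    simp only [Pi.add_apply, Pi.smul_apply, Pi.sub_apply, smul_eq_mul, hb] at this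
    rw [this] at hi
    cases e <;> simp [sg] at hi
  cases e
  · simp only [sg, Bool.false_eq_true, if_false] at hi
    simp only [decide_eq_false_iff_not, not_lt]
    nlinarith [hi.1]
  · simp only [sg, if_true] at hi
    simp only [decide_eq_true_eq]
    nlinarith [hi.2]

def Good (x y : Fin 4 → Bool) : Prop := ∀ e f : Bool, ∃ k, x k = e ∧ y k = f

instance (x y : Fin 4 → Bool) : Decidable (Good x y) := by unfold Good; infer_instance

lemma no_oa : ∀ x y : Fin 4 → Bool, Good x y → ∀ z, Good x z → Good y z →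
    ∀ w, Good x w → Good y w → Good z w → False := by decide +kernel

theorem result : ¬ ∀ d : ℕ, 2 ≤ d → ∀ i : ℕ, i ≤ d - 1 → ∀ W : Finset (Fin d → ℝ),
    (interior (convexHull ℝ (W : Set (Fin d → ℝ)))).Nonempty →
    ∃ S : Finset (Fin d → ℝ), S.card ≤ 2 ^ (d - 1 - i) ∧
      (∀ s ∈ S, s ∉ convexHull ℝ (W : Set (Fin d → ℝ))) ∧
      ∀ b ∈ X i (convexHull ℝ (W : Set (Fin d → ℝ))),
        ∃ s ∈ S, Illum (convexHull ℝ (W : Set (Fin d → ℝ))) s b := by
  intro h
  obtain ⟨S, hc, -, hS⟩ := h 4 (by norm_num) 1 (by norm_num) V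
    ⟨0, by rw [inter]; intro i _; simp⟩
  have hc4 : S.card ≤ 4 := hc
  obtain ⟨g, hg⟩ : ∃ g : Fin 4 → (Fin 4 → ℝ), ∀ s ∈ S, ∃ k, g k = s := by
    refine ⟨fun k => if hk : k.val < S.card then (S.equivFin.symm ⟨k, hk⟩ : S) else 0, ?_⟩
    intro s hs
    refine ⟨⟨(S.equivFin ⟨s, hs⟩).val, lt_of_lt_of_le (S.equivFin ⟨s, hs⟩).2 hc4⟩, ?_⟩
    simp
  have good : ∀ i j : Fin 4, i ≠ j →
      Good (fun k => decide (0 < g k i)) (fun k => decide (0 < g k j)) := by
    intro i j hij e f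
    obtain ⟨s, hs, hI⟩ := hS _ (pt_mem i j hij e f)
    obtain ⟨k, rfl⟩ := hg s hs
    exact ⟨k, illum_sign _ _ hI i e (by simp [pt]), illum_sign _ _ hI j f (by simp [pt, hij.symm])⟩
  exact no_oa _ _ (good 0 1 (by decide)) _ (good 0 2 (by decide)) (good 1 2 (by decide)) _
    (good 0 3 (by decide)) (good 1 3 (by decide)) (good 2 3 (by decide))

end Pool.Agent.Results.MP_22e672_co.Cube
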